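import Pool.Agent.Lib.MP_40d5d3_al.All.Main

set_option autoImplicit false

open scoped Pointwise

namespace Pool.Agent.Results.MP_40d5d3_al.IffAbelian

/-- A nilpotent group with exponential coordinates and a left invariant metric with approximate
midpoints: all quasiisometries coarsely permute the left cosets of all nontrivial terms of the
lower central series if and only if the group is abelian. -/
theorem result (G : Type) [Group G] [MetricSpace G] [IsTopologicalGroup G] [Group.IsNilpotent G]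
    (hinv : ∀ g p q : G, dist (g * p) (g * q) = dist p q)
    (hmid : ∀ p q : G, ∀ ε > 0, ∃ c, dist p c ≤ dist p q / 2 + ε ∧ dist c q ≤ dist p q / 2 + ε)
    (m : ℕ) (exp : (Fin m → ℝ) ≃ₜ G)
    (hexp : ∀ (X : Fin m → ℝ) (s t : ℝ), exp ((s + t) • X) = exp (s • X) * exp (t • X)) :
    (∀ f : G → G, (∃ L C : ℝ, 1 ≤ L ∧ 0 ≤ C ∧
        (∀ p q, L⁻¹ * dist p q - C ≤ dist (f p) (f q) ∧ dist (f p) (f q) ≤ L * dist p q + C) ∧
        ∀ q, ∃ p, dist q (f p) ≤ C) →
      ∀ i : ℕ, (⊤ : Subgroup G).lowerCentralSeries i ≠ ⊥ → ∃ D : ℝ, ∀ g : G, ∃ h : G,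
        Metric.hausdorffEDist (f '' (g • ((⊤ : Subgroup G).lowerCentralSeries i : Set G)))
          (h • ((⊤ : Subgroup G).lowerCentralSeries i : Set G)) ≤ ENNReal.ofReal D) ↔
    ∀ a b : G, a * b = b * a :=
  haveI : IsIsometricSMul G G := ⟨fun g => Isometry.of_dist_eq (hinv g)⟩
  Lib.MP_40d5d3_al.All.main hexp hmid

end Pool.Agent.Results.MP_40d5d3_al.IffAbelian
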