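import Mathlib
import Pool.Agent.Lib.MP_40d5d3_al.Shear

set_option autoImplicit false

open Pool.Agent.Lib.MP_40d5d3_al

namespace Pool.Agent.Results.MP_40d5d3_al.LogShear

theorem result :
    (∀ n : ℕ, 1 ≤ n → ∀ (B : Type) [Group B], IsEmpty (N ≃* Heis n × B)) ∧
    (∀ (B : Type) [Group B], IsEmpty (N ≃* Multiplicative ℝ × B)) ∧
    ∃ f : N → N, ∀ d ∈ ({dRiem, dCC} : Set (N → N → ℝ)),
      IsQI d f ∧
      ∀ (h : N) (D : ℝ), ∃ k ∈ (⊤ : Subgroup N).lowerCentralSeries 1,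
        ∀ k' ∈ (⊤ : Subgroup N).lowerCentralSeries 1, D < d (f k) (h * k') :=
  ⟨no_heis, no_euclid, shear, fun _ hd => ⟨shear_qi hd, shear_far hd⟩⟩

end Pool.Agent.Results.MP_40d5d3_al.LogShear
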